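import Pool.Agent.Lib.MP_144d21_co.X4.Iface
import Pool.Agent.Lib.MP_144d21_co.XU.H80.Block

/-!
# MP_144d21_co, project X4, module MAIN (helper43)
-/

set_option autoImplicit false

namespace Pool.Agent.Xu.X4

open Finset Polynomial

namespace MainAux

variable {V : Type} [Fintype V] [DecidableEq V]

/-- the induction step at a clique separator -/
theorem step (hGlp : GlpS) (hChg : ChgS) {G : SimpleGraph V} {S S1 S2 : Finset V}
    (ih : ∀ T : Finset V, T.card < S.card → Cls G T → ChordalOn G T) (hC : Cls G S)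
    (hU : S1 ∪ S2 = S) (h1 : S1 ≠ S) (h2 : S2 ≠ S) (hSep : Sep G S1 S2)
    (hQ : Clq G (S1 ∩ S2)) : ChordalOn G S := by
  obtain ⟨k, s, hs, hs3, hs4⟩ := hC
  obtain ⟨t, u, ht, hu, htu⟩ := hGlp V G S1 S2 k s hSep hQ (by rw [hU]; exact hs)
  have hS1 : S1 ⊆ S := by rw [← hU]; exact subset_union_left
  have hS2 : S2 ⊆ S := by rw [← hU]; exact subset_union_right
  have c1 : Cls G S1 := ⟨k, t, ht, (htu 3).1.trans hs3, fun j hj => (htu j).1.trans (hs4 j hj)⟩
  have c2 : Cls G S2 := ⟨k, u, hu, (htu 3).2.trans hs3, fun j hj => (htu j).2.trans (hs4 j hj)⟩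
  have d1 := ih S1 (card_lt_card (Finset.ssubset_iff_subset_ne.2 ⟨hS1, h1⟩)) c1
  have d2 := ih S2 (card_lt_card (Finset.ssubset_iff_subset_ne.2 ⟨hS2, h2⟩)) c2
  have := hChg V G S1 S2 hSep hQ d1 d2
  rwa [hU] at this

omit [Fintype V] [DecidableEq V] in
/-- a disconnected set splits off a part -/
theorem split {G : SimpleGraph V} {D : Finset V} (hne : D.Nonempty) (h : ¬ Conn G D) :
    ∃ A ⊆ D, A.Nonempty ∧ A ≠ D ∧ ∀ x ∈ A, ∀ y ∈ D, y ∉ A → ¬ G.Adj x y := by
  by_contra hcon
  push Not at hcon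
  refine h ⟨hne, fun A hA hAn hAs => ?_⟩
  obtain ⟨x, hx, y, hy, hyA, hxy⟩ := hcon A hA hAn hAs
  exact ⟨x, hx, y, hy, hyA, hxy⟩

/-- a clique `Q` and a splitting of the rest -/
theorem step2 (hGlp : GlpS) (hChg : ChgS) {G : SimpleGraph V} {S Q A : Finset V}
    (ih : ∀ T : Finset V, T.card < S.card → Cls G T → ChordalOn G T) (hC : Cls G S)
    (hQS : Q ⊆ S) (hQ : Clq G Q) (hA : A ⊆ S \ Q) (hAn : A.Nonempty) (hAs : A ≠ S \ Q)
    (hAe : ∀ x ∈ A, ∀ y ∈ S \ Q, y ∉ A → ¬ G.Adj x y) : ChordalOn G S := by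
  have hAS : A ⊆ S := hA.trans sdiff_subset
  have hU : (Q ∪ A) ∪ (S \ A) = S := by
    ext x
    simp only [mem_union, mem_sdiff]
    constructor
    · rintro ((h | h) | h)
      · exact hQS h
      · exact hAS h
      · exact h.1
    · intro h
      by_cases hx : x ∈ A
      · exact Or.inl (Or.inr hx)
      · exact Or.inr ⟨h, hx⟩
  have hI : (Q ∪ A) ∩ (S \ A) = Q := by
    ext x
    simp only [mem_inter, mem_union, mem_sdiff]
    constructor
    · rintro ⟨h | h, h2⟩
      · exact h
      · exact absurd h h2.2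
    · intro h
      exact ⟨Or.inl h, hQS h, fun hx => (mem_sdiff.1 (hA hx)).2 h⟩
  refine step hGlp hChg ih hC hU ?_ ?_ ?_ ?_
  · intro h
    apply hAs
    apply Subset.antisymm hA
    intro x hx
    have hx' := mem_sdiff.1 hx
    have : x ∈ Q ∪ A := by rw [h]; exact hx'.1
    rcases mem_union.1 this with h1 | h1
    · exact absurd h1 hx'.2
    · exact h1
  · intro h
    obtain ⟨x, hx⟩ := hAn
    have : x ∈ S \ A := by rw [h]; exact hAS hx
    exact (mem_sdiff.1 this).2 hx
  · intro x hx hx2 y hy hy2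
    have hxA : x ∈ A := by
      by_contra hcon
      refine hx2 (mem_sdiff.2 ⟨?_, hcon⟩)
      rcases mem_union.1 hx with h | h
      · exact hQS h
      · exact hAS h
    refine hAe x hxA y (mem_sdiff.2 ⟨(mem_sdiff.1 hy).1, fun h => hy2 (mem_union_left _ h)⟩)
      fun h => hy2 (mem_union_right _ h)
  · rw [hI]
    exact hQ

/-- cutting off trivial factors -/
theorem PP_cut (k l : ℕ) (s : ℕ → ℕ) (hl : l ≤ k) (h : ∀ j, l < j → j ≤ k → s j = 0) :
    PP k s = PP l s := by
  unfold PP
  symm
  apply prod_subset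
  · intro j hj
    rw [mem_range] at hj ⊢
    omega
  · intro j hj hj2
    rw [mem_range] at hj hj2
    rw [h j (by omega) (by omega), pow_zero]

/-- adding trivial factors -/
theorem PP_pad (k l : ℕ) (s : ℕ → ℕ) (hl : k ≤ l) :
    PP k s = PP l fun j => if j ≤ k then s j else 0 := by
  rw [PP_cut l k _ hl (fun j h1 _ => if_neg (by omega))]
  unfold PP
  apply prod_congr rfl
  intro j hj
  rw [mem_range] at hj
  show (X - C (j : ℤ)) ^ s j = (X - C (j : ℤ)) ^ (if j ≤ k then s j else 0)
  rw [if_pos (by omega)]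

/-- only the roots `0, 1, 2, 3` -/
theorem good_of {G : SimpleGraph V} {S : Finset V} {k : ℕ} {s : ℕ → ℕ} (hs : chi G S = PP k s)
    (h : ∀ j, 4 ≤ j → j ≤ k → s j = 0) : ∃ a, Good G S a := by
  have key : ∃ t : ℕ → ℕ, PP k s = PP 3 t := by
    rcases le_total k 3 with hk | hk
    · exact ⟨_, PP_pad k 3 s hk⟩
    · exact ⟨s, PP_cut k 3 s hk fun j h1 h2 => h j (by omega) h2⟩
  obtain ⟨t, ht⟩ := key
  refine ⟨t 2, t 0, t 1, t 2, t 3, le_rfl, ?_⟩
  rw [hs, ht]
  unfold PP
  simp only [prod_range_succ, range_zero, prod_empty, one_mul, Nat.cast_zero, Nat.cast_one,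
    Nat.cast_ofNat, map_zero, sub_zero, C_1, map_ofNat]

/-- the 2-connected case -/
theorem twoCase (hGlp : GlpS) (hChg : ChgS) (hXu : Xu3S) (hNumk : NumkS) (hStep : Step1S)
    (hClq : ClqS) (hMin : MinorS) {G : SimpleGraph V} {S : Finset V}
    (ih : ∀ T : Finset V, T.card < S.card → Cls G T → ChordalOn G T) (hC : Cls G S)
    (hT : TwoConn G S) : ChordalOn G S := by
  obtain ⟨k0, s, hs, hs3, hs4⟩ := id hC
  by_cases hbig : ∀ j, 4 ≤ j → j ≤ k0 → s j = 0
  · obtain ⟨a, ha⟩ := good_of hs hbig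
    exact hXu V G S a ha
  push Not at hbig
  -- the largest root
  obtain ⟨k, hk4, hk, hsk, hPP⟩ : ∃ k, 4 ≤ k ∧ k ≤ k0 ∧ s k ≠ 0 ∧ PP k0 s = PP k s := by
    let A : Finset ℕ := (range (k0 + 1)).filter fun j => 4 ≤ j ∧ s j ≠ 0
    have hA : A.Nonempty := by
      obtain ⟨j, h1, h2, h3⟩ := hbig
      exact ⟨j, mem_filter.2 ⟨mem_range.2 (by omega), h1, h3⟩⟩
    have hm := mem_filter.1 (A.max'_mem hA)
    have hmr := mem_range.1 hm.1
    refine ⟨A.max' hA, hm.2.1, by omega, hm.2.2, PP_cut _ _ _ (by omega) ?_⟩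
    intro j h1 h2
    by_contra h3
    have h4 : 4 ≤ j := by have := hm.2.1; omega
    have := A.le_max' j (mem_filter.2 ⟨mem_range.2 (by omega), h4, h3⟩)
    omega
  rw [hPP] at hs
  obtain ⟨hcol, hbet⟩ := hNumk V G S k s hk4 hT hs hsk hs3 hs4
  -- a large clique
  obtain ⟨Q, hQS, hQ, hQc⟩ : ∃ Q ⊆ S, Clq G Q ∧ k < Q.card := by
    by_contra hcon
    push Not at hcon
    have := hStep V G S k hk4 hT hcol hcon
    omega
  by_cases hQe : Q = S
  · rw [← hQe]
    exact (hClq V G Q hQ).2
  have hDn : (S \ Q).Nonempty := by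
    rw [sdiff_nonempty]
    exact fun h => hQe (Subset.antisymm hQS h)
  by_cases hD : Conn G (S \ Q)
  · by_cases hq : ∀ q ∈ Q, ∃ d ∈ S \ Q, G.Adj q d
    · exfalso
      have h1 := hMin V G S Q hT hQS hQ (by omega) hD hq
      have h2 : k.factorial ≤ (Q.card - 1).factorial := Nat.factorial_le (by omega)
      have h3 : k.factorial = k * (k - 1).factorial := (Nat.mul_factorial_pred (by omega)).symm
      have h4 : 0 < (k - 1).factorial := Nat.factorial_pos _
      have h5 : 4 * (k - 1).factorial ≤ k * (k - 1).factorial := Nat.mul_le_mul_right _ hk4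
      have h6 : ((Q.card - 1).factorial : ℤ) ≤ 2 * ((k - 1).factorial : ℤ) := h1.trans hbet
      have h7 : (Q.card - 1).factorial ≤ 2 * (k - 1).factorial := by exact_mod_cast h6
      omega
    · push Not at hq
      obtain ⟨q, hqQ, hq⟩ := hq
      refine step hGlp hChg ih hC (S1 := Q) (S2 := S.erase q) ?_ hQe ?_ ?_ ?_
      · ext x
        simp only [mem_union, mem_erase]
        constructor
        · rintro (h | h)
          · exact hQS h
          · exact h.2
        · intro h
          by_cases hx : x = q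
          · exact Or.inl (hx ▸ hqQ)
          · exact Or.inr ⟨hx, h⟩
      · intro h
        have : q ∈ S.erase q := by rw [h]; exact hQS hqQ
        exact notMem_erase q S this
      · intro x hx hx2 y hy hy2
        have hxq : x = q := by
          by_contra hcon
          exact hx2 (mem_erase.2 ⟨hcon, hQS hx⟩)
        rw [hxq]
        exact hq y (mem_sdiff.2 ⟨mem_of_mem_erase hy, hy2⟩)
      · intro x hx y hy hxy
        exact hQ x (mem_inter.1 hx).1 y (mem_inter.1 hy).1 hxy
  · obtain ⟨A, hA, hAn, hAs, hAe⟩ := split hDn hD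
    exact step2 hGlp hChg ih hC hQS hQ hA hAn hAs hAe

end MainAux

open MainAux in
theorem main (hGlp : GlpS) (hChg : ChgS) (hXu : Xu3S) (hNumk : NumkS) (hStep : Step1S)
    (hClq : ClqS) (hMin : MinorS) : MainS := by
  intro V _ _ G
  have key : ∀ n : ℕ, ∀ S : Finset V, S.card = n → Cls G S → ChordalOn G S := by
    intro n
    induction n using Nat.strong_induction_on with
    | _ n ih0 =>
      intro S hn hC
      have ih : ∀ T : Finset V, T.card < S.card → Cls G T → ChordalOn G T :=
        fun T hT hTc => ih0 T.card (hn ▸ hT) T rfl hTc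
      by_cases hsmall : S.card ≤ 3
      · exact H80.chordalOn_of_card hsmall
      push Not at hsmall
      by_cases hT : TwoConn G S
      · exact twoCase hGlp hChg hXu hNumk hStep hClq hMin ih hC hT
      by_cases hCo : Conn G S
      · -- a cut vertex
        have h1 : ∃ v ∈ S, ¬ Conn G (S.erase v) := by
          by_contra hcon
          push Not at hcon
          exact hT ⟨by omega, hCo, hcon⟩
        obtain ⟨v, hv, hvc⟩ := h1
        have hne : (S.erase v).Nonempty := by
          rw [← card_pos, card_erase_of_mem hv]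
          omega
        obtain ⟨A, hA, hAn, hAs, hAe⟩ := split hne hvc
        have hE : S \ {v} = S.erase v := sdiff_singleton_eq_erase v S
        refine step2 hGlp hChg ih hC (Q := {v}) (A := A) (singleton_subset_iff.2 hv) ?_
          (by rw [hE]; exact hA) hAn (by rw [hE]; exact hAs) (by rw [hE]; exact hAe)
        intro x hx y hy hxy
        rw [mem_singleton] at hx hy
        exact absurd (hx.trans hy.symm) hxy
      · -- not connected
        have hne : S.Nonempty := by
          rw [← card_pos]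
          omega
        obtain ⟨A, hA, hAn, hAs, hAe⟩ := split hne hCo
        have hE : S \ ∅ = S := sdiff_empty
        refine step2 hGlp hChg ih hC (Q := ∅) (A := A) (empty_subset _) ?_
          (by rw [hE]; exact hA) hAn (by rw [hE]; exact hAs) (by rw [hE]; exact hAe)
        intro x hx
        exact absurd hx (notMem_empty _)
  intro S hC
  exact key _ S rfl hC

end Pool.Agent.Xu.X4
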